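import Pool.Agent.H247.VE.HypForm

/-!
# Finitude of attractors away from the wild chain classes, for arbitrary diffeomorphisms

Let `F` be any `C^r` diffeomorphism of a closed manifold. Call a chain recurrence class of `F` tame if
it is of one of three kinds:

* (L) some continuous quadratic form increases strictly under `DF` at the points of the class; this
  holds if the class is a hyperbolic set (first part of the theorem);
* (E) the class is a periodic orbit, and the return derivative has at most one eigenvalue of modulus
  one;
* (D) some iterate of `F` expands the volume at the points of the class. Nothing else is assumed about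
  the dynamics on the class: there may be homoclinic tangencies, infinitely many sources, and so on.

There may be infinitely many classes of every kind, accumulating on one another. Then for every open
set `O` containing the other chain classes, an open and dense set of maps near `F` (in `Diff^r`,
`1 ≤ r ≤ ∞`, in all dimensions) have finitely many attractors whose basins contain, up to volume zero,
all points whose `ω`-limit set is not contained in `O`. So an infinity of attractors of the maps near
`F` (Newhouse phenomenon) can only occur near the classes of `F` which are not tame; if all classes
are tame, the basins of finitely many attractors cover the manifold up to volume zero.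

Proof. A chain class has small neighbourhoods in the chain recurrent set which are invariant, open and
closed. A neighbourhood of a class of kind (L) or (D) has the same property, robustly; near a periodic
orbit with one neutral eigenvalue all chain recurrent points of the maps `G` near `F` are fixed by
`G^(2m)`, `m` the period. By compactness, finitely many pieces and `O` cover the chain recurrent set.
For an open and dense set of `G` the fixed points of the corresponding iterates are hyperbolic, and
the pieces of kinds (L) and (E) are hyperbolic; shadowing and expansivity on them give finitely many
transitive chain classes. The points whose orbit stays near a class of kind (D) form a set which is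
mapped into itself by a volume expanding map, so it has volume zero.

Definitions: `ClasswiseOff`, `ClassesOff`, `FiniteAttractorsOff`, `chainClass`, `FormIncreases`,
`OneNeutralOrbit`, `VolumeExpands` (`Pool/Agent/H247/VE/RelDefs.lean`), `SmoothMeasure`, `ExpandsAt`, `Dens`
(`Pool/Agent/H247/VE/Stm.lean`), `lin` (`Pool/Agent/H247/CB/Fin.lean`), `AtMostOne`
(`Pool/Agent/H247/CB/Stm.lean`); `ChainRecurrent`, `IsForm`, `dN`, `Hyperbolic` (in
`K7/H85/KH/Stmt.lean` of the library), `cls`, `ChainTo` (in `Q182/MC1.lean` of the library), `FiniteAttractors`, `IsAttractor`,
`omegaLim` (in `H728R2/FA/Defs.lean` of the library); `strongTop n N r` is the Whitney `C^r` topology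
on `DiffM n N r = Diff^r(N)`.
-/

set_option autoImplicit false

open scoped Manifold ContDiff Topology
open MeasureTheory

universe u

namespace Pool.Agent.Results.MP_3a2b62_an.FinitudeOffWildClasses

open Pool.Agent.H718R2.G Pool.Agent.H247.VE Pool.Agent.K7.H85.KHS
open Pool.Agent.H728R2.FA (FiniteAttractors omegaLim)

/-- The conclusion for the nearby maps: finitely many attractors covering the points whose `ω`-limit
set is not contained in `O` (all points if `O` is empty), and finitely many transitive classes as in
`ClassesOff`, which contain all `ω`-limit sets not contained in `O` if `D` is empty. -/
def FinitudeOff {X : Type u} [TopologicalSpace X] [MeasurableSpace X] (μ : Measure X) (g : X → X)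
    (D O : Set X) : Prop :=
  FiniteAttractorsOff μ g O ∧ (O = ∅ → FiniteAttractors μ g) ∧
    ∃ S : Set (Set X), ClassesOff μ g O S ∧
      (D = ∅ → ∀ p, omegaLim g p ⊆ O ∨ ∃ C ∈ S, omegaLim g p ⊆ C)

/-- Let `N` be a closed manifold with a volume `μ` (a measure with continuous positive densities),
`1 ≤ r ≤ ∞`, `F` a `C^r` diffeomorphism of `N`, and `O` an open set. The hyperbolic chain classes of
`F` are of kind (L). Let `L`, `E`, `D` be sets which
together with `O` contain all chain recurrent points of `F`, such that the chain class of each point
of `L` (of `E`, of `D`) is of kind (L) ((E), (D)). Then `F` has a neighbourhood `U` in `Diff^r(N)` with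
an open subset `W`, dense in `U`, of maps with finitely many attractors covering the points whose
`ω`-limit set is not contained in `O`, and with finitely many transitive classes `S` as in
`ClassesOff`; if `O` is empty, the attractors cover `N`; if `E` is empty, then `W = U`; if `D` is
empty, then the classes contain all `ω`-limit sets which are not contained in `O`. -/
theorem result (n : ℕ) (N : Type u) [TopologicalSpace N] [T2Space N] [CompactSpace N]
    [ChartedSpace (V n) N] [IsManifold (𝓡 n) ∞ N] [MeasurableSpace N] [BorelSpace N]
    (μ : Measure N) [IsFiniteMeasure μ] (hμ : SmoothMeasure n μ) (r : ℕ∞) (hr : 1 ≤ r)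
    (F : DiffM n N r) (L E D O : Set N) (hO : IsOpen O) (h : ClasswiseOff μ F L E D O) :
    (∀ x, Hyperbolic n F F.symm (chainClass F x) → FormIncreases F (chainClass F x)) ∧
    ∃ U W : Set (DiffM n N r), IsOpen[strongTop n N r] U ∧ F ∈ U ∧ IsOpen[strongTop n N r] W ∧
      W ⊆ U ∧ (∀ U' ⊆ U, IsOpen[strongTop n N r] U' → U'.Nonempty → (U' ∩ W).Nonempty) ∧
      (E = ∅ → W = U) ∧ ∀ G ∈ W, FinitudeOff μ (G : N → N) D O :=
  ⟨fun x hx => class_form hr F x hx, final_off μ hμ hr F L E D O hO h⟩

end Pool.Agent.Results.MP_3a2b62_an.FinitudeOffWildClasses
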