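import Pool.Agent.H244.TM.Man

/-!
# Finitude of attractors near the time maps of flows, and near maps with a power in a flow

Palis' questions on flows (Q2) and on diffeomorphisms (Q1), `N` a closed manifold, `1 ≤ r ≤ ∞`.
The flow of a vector field `X ∈ χ^r(N)` is always denoted by `φ`.

(1) If the flow of `X` has finitely many attractors covering `N` up to a null set, then so has its
time-`t` map for all `t > 0` outside of a meagre set of real numbers.

(2) In the situation of (1) let `R ∈ Diff^r(N)` commute with the flow and let `R^k = φ_T` for some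
`k ≥ 1` and `T ∈ ℝ` (for instance `R = id`, or a symmetry of `X` of finite order, or a root of a time
map). If `T + k s ≥ 0` then every neighbourhood of `R ∘ φ_s` in `Diff^r(N)` contains some
`R ∘ φ_t`, `t > s`, which has finitely many attractors covering `N` up to a null set. So the
answer of Q1 is positive near the time maps of all fields for which finitude (Q2) holds.

(3) Let `X` have a weak Lyapunov function `h` whose critical orbits are contained in finitely many
closed sets on which the flow is transitive (closed orbits, irrational tori, suspensions, ...), or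
in an open set where `X = A dh`. Then every neighbourhood of the time-one map of `X` in
`Diff^r(N)` contains a diffeomorphism with finitely many attractors covering `N` up to a null set,
for all measures. (The starting theorem `WeakLyapunovFields` of helper74 has this conclusion if the
exceptional sets are transitive also for the time-one map.)

Definitions of the library: `Pool/Agent/W5h74/FL/Defs.lean` (`VField n N r = χ^r(N)`, `IsFlow`,
attractors of flows), `Pool/Agent/W5h74/FL/PartB.lean` (`CoMap`, `IsCr`),
`Pool/Agent/H718R2/G0.lean` (`DiffM n N r = Diff^r(N)`, `strongTop`: the `C^r` topology),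
`Pool/Agent/H728R2/FA/Defs.lean` (attractors of maps). Author: helper244.
-/

set_option autoImplicit false

open scoped Manifold ContDiff Topology
open Filter Set MeasureTheory

universe u

namespace Pool.Agent.Results.MP_3a2b62_an.TimeMaps

open Pool.Agent.W5h74.FL
open Pool.Agent.H718R2.G (DiffM strongTop)

/-- The diffeomorphism or map `f` has finitely many attractors covering the space up to a null set
(definition of the library, for maps). -/
def FewAttractors {N : Type u} [TopologicalSpace N] [MeasurableSpace N] (μ : Measure N)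
    (f : N → N) : Prop := Pool.Agent.H728R2.FA.FiniteAttractors μ f

/-- Every neighbourhood of `F` in `Diff^r(N)` contains some `G` with the property `P`. -/
def Near {n : ℕ} {N : Type u} [TopologicalSpace N] [ChartedSpace (V n) N] {r : ℕ∞}
    (F : DiffM n N r) (P : DiffM n N r → Prop) : Prop :=
  ∀ U : Set (DiffM n N r), IsOpen[strongTop n N r] U → F ∈ U → ∃ G ∈ U, P G

/-- The diffeomorphism `R` commutes with the flow `φ`, and `R^k = φ_T`. -/
def IsRoot {n : ℕ} {N : Type u} [TopologicalSpace N] [ChartedSpace (V n) N] {r : ℕ∞}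
    (φ : N → ℝ → N) (R : DiffM n N r) (k : ℕ) (T : ℝ) : Prop :=
  (∀ x t, R (φ x t) = φ (R x) t) ∧ ∀ x, R^[k] x = φ x T

/-- The sets `M i` are closed, pairwise disjoint, and invariant and transitive under the flow `φ`. -/
def TransitiveSets {N : Type u} [TopologicalSpace N] (φ : N → ℝ → N) {m : ℕ}
    (M : Fin m → Set N) : Prop :=
  (∀ i, IsClosed (M i)) ∧ (∀ i j, i ≠ j → Disjoint (M i) (M j)) ∧
    (∀ i t, (fun x => φ x t) '' M i = M i) ∧ ∀ i, ∃ x ∈ M i, M i ⊆ closure (φ x '' Ici 0)

/-- `h` is a weak Lyapunov function of the vector field `X` with exceptional sets `M 0, …, M (m-1)`: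
`X h ≥ 0`; the sets `M i` are closed, pairwise disjoint, invariant and transitive under the flow
`φ` of `X`, and consist of critical points of `h`; every orbit of `X` that consists of critical
points of `h` is contained in one of them or in an open set `O`, whose closure does not meet them,
on which `X = A dh`, where `A : T*N → TN` is of class `C^r` and `ξ (A ξ) ≥ 0` for all `ξ`. -/
def IsWeakLyapunov {n : ℕ} {N : Type u} [TopologicalSpace N] [ChartedSpace (V n) N]
    [IsManifold (𝓡 n) ∞ N] {r : ℕ∞} (X : VField n N r) (h : N → ℝ) {m : ℕ}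
    (M : Fin m → Set N) : Prop :=
  (∀ x, 0 ≤ dirDeriv X.fld h x) ∧
  ∃ (φ : N → ℝ → N) (O : Set N) (A : CoMap n N), IsFlow X.fld φ ∧ TransitiveSets φ M ∧
    (∀ i, ∀ x ∈ M i, IsCrit n h x) ∧ IsOpen O ∧ (∀ i, Disjoint (M i) (closure O)) ∧
    IsCr r A ∧ (∀ (x : N) (ξ : V n →ₗ[ℝ] ℝ), 0 ≤ ξ (A x ξ)) ∧
    (∀ x ∈ O, X.fld x = A x (diff n h x)) ∧
    ∀ x, (∀ t, IsCrit n h (φ x t)) → x ∈ O ∨ ∃ i, x ∈ M i

theorem result (n : ℕ) (N : Type u) [TopologicalSpace N] [T2Space N] [CompactSpace N]
    [ChartedSpace (V n) N] [IsManifold (𝓡 n) ∞ N] (r : ℕ∞) (hr : 1 ≤ r) (X : VField n N r)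
    (φ : N → ℝ → N) (hφ : IsFlow X.fld φ) :
    (∀ (_ : MeasurableSpace N) (μ : Measure N), FiniteAttractors μ φ →
      {t : ℝ | 0 < t → FewAttractors μ fun x => φ x t} ∈ residual ℝ ∧
      ∀ (R F : DiffM n N r) (k : ℕ) (T s : ℝ), 1 ≤ k → IsRoot φ R k T → 0 ≤ T + k * s →
        (∀ x, F x = R (φ x s)) →
          Near F fun G => FewAttractors μ G ∧ ∃ t > s, ∀ x, G x = R (φ x t)) ∧
    ∀ (h : N → ℝ) (m : ℕ) (M : Fin m → Set N) (F : DiffM n N r),
      ContMDiff (𝓡 n) 𝓘(ℝ, ℝ) ((r + 1 : ℕ∞) : ℕ∞ω) h → IsWeakLyapunov X h M →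
        (∀ x, F x = φ x 1) →
          Near F fun G => ∀ (_ : MeasurableSpace N) (μ : Measure N), FewAttractors μ G := by
  have e : φ = theFlow hr X := eq_theFlow hr X hφ
  refine ⟨fun _ μ hfa => ?_, fun h m M F hh hX hF U hU hFU => ?_⟩
  · subst e
    have : SecondCountableTopology N := ChartedSpace.secondCountable_of_sigmaCompact (V n) N
    refine ⟨(Pool.Agent.H244.TM.cflow hr X).residual_fa hfa,
      fun R F k T s hk hR hs hF U hU hFU => ?_⟩
    have hFe : F = (Pool.Agent.H244.TM.timeT hr X s).trans R := by
      ext x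
      exact hF x
    rw [hFe] at hFU
    obtain ⟨t, hst, htU, ht⟩ :=
      Pool.Agent.H244.TM.approx_root hr X hfa R hR.1 hk hR.2 hs hU hFU
    exact ⟨_, htU, ht, t, hst, fun x => rfl⟩
  · obtain ⟨hm, φ', O, A, hφ', ⟨hcl, hdis, hinv, htr⟩, hC, hO, hMO, hA, hpos, hXA, hcov⟩ := hX
    have hFe : F = timeOne hr X := by
      ext x
      rw [hF x, e]
      rfl
    rw [hFe] at hFU
    exact Pool.Agent.H244.TM.approx_lyap hr X hh hm hφ' hO hA hpos hXA M hcl hdis hMO hC hinv htr
      hcov U hU hFU

end Pool.Agent.Results.MP_3a2b62_an.TimeMaps
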